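import Pool.Agent.K1H14.CI.FFMain

/-!
# Slow growth of the Chow groups and the conjecture of Tate imply the conjecture of Beilinson

Let `X` be a smooth projective variety over a finite field `k` with `q` elements.  The Chern
character identifies `K_0(perf(X ^ n))_ℚ` with `CH(X ^ n)`, the Chow groups with rational
coefficients of all codimensions, and the kernel of the Euler pairing `χ_ℚ` with the space `numTriv`
of the numerically trivial classes.

**Theorem.** One of the following holds:

* `dim K_0(perf(X ^ m))_ℚ / dim (K_0(perf(X ^ m))_ℚ / Ker (χ_ℚ))` tends to infinity for `m → ∞`;
* for all `n`, the conjecture of Tate for `X ^ n` implies the conjecture of Beilinson for `X ^ n`,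
  that is, `Ker (χ_ℚ) = 0` for the dg category `perf(X ^ n)`.

In particular, if the conjecture of Tate holds for all powers of `X`, then either `Ker (χ_ℚ) = 0`
for all `perf(X ^ n)`, and all quotients above are equal to one, or the quotients tend to infinity:
**for such `X` the noncommutative conjecture of Beilinson for all powers of `perf(X)` is equivalent
to a weak bound for the dimensions of the groups `K_0(perf(X ^ m))_ℚ`** (which may a priori be
infinite).  The conjecture of Tate is known for all powers of, for instance, ordinary K3 surfaces
(Zarhin, Nygaard-Ogus).

By theorems of Soule, Geisser and Kahn the conjecture of Tate implies the conjecture of Beilinson for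
varieties whose motive is finite-dimensional in the sense of Kimura and O'Sullivan (or for which
numerically trivial correspondences are nilpotent).  Here this assumption, which is known only for
varieties dominated by products of curves, is replaced by the condition that the quotients above do
not tend to infinity.  `TateConjecture` is the original conjecture of Tate: the eigenvectors of
Frobenius for the eigenvalue `q ^ j` are linear combinations of algebraic classes; the semisimplicity
of the eigenvalue is deduced.

## What is used, and what is new

The starting files `Pool.Agent.Y129` and `Pool.Agent.Y133` are used as tools (ranks of idempotent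
correspondences on the powers of a variety, and the law for classes in the cohomology). New: the
finiteness of the limit implies that the Chow groups of the powers are finite-dimensional, that
homological and numerical equivalence agree, and that numerically trivial correspondences are
nilpotent (files `Abs.lean` to `Final.lean` of `Pool.Agent.K1H14.CI`, see
`MP_dd457d_ag.IndexOfChowGroups`); and the argument with Frobenius (`FF.lean`): the minimal
polynomial of Frobenius in the ring of correspondences gives a correspondence `e` which acts on
`CH^j` as the identity, and whose image in the cohomology consists of algebraic classes, so that the
composition of `e` with the projector to the transcendental part is homologically trivial, hence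
nilpotent; it acts on the numerically trivial classes of codimension `j` as the identity.
-/

open CategoryTheory AlgebraicGeometry Filter Topology

open scoped ENNReal

universe u v w

namespace Pool.Agent.Results.MP_dd457d_ag.GrowthTateBeilinson

open Pool.Agent.H914 Pool.Agent.H914.VarClass Pool.Agent.R903 Pool.Agent.Y129
  Pool.Agent.K1H14.CI

/-- **Growth, Tate and Beilinson.** Let `C` be the rational Chow groups on a class `𝒱` of smooth
projective varieties over a finite field `k` which is closed under products, `W` a Weil cohomology
theory, `X` in `𝒱`, and `F n` the Frobenius endomorphism of `pw X n`, the product of `n + 1` copies
of `X`.  Let `chowDim C Y` be the dimension of `CH(Y)` (all codimensions), an element of `ℕ ∪ {∞}`,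
and `numDim C Y` the dimension of its quotient by the numerically trivial classes.  Either the
quotients `chowDim C (pw X n) / numDim C (pw X n)` tend to infinity, or, for all `n`, the conjecture
of Tate for `pw X n` implies that numerically trivial classes on `pw X n` are zero. -/
theorem result {k : Type u} [Field k] [Finite k] {𝒱 : VarClass k} (C : ChowTheory.{u, v} 𝒱)
    (hC : HasDegree C) (W : WeilTheory.{u, v, w} C) (X : 𝒱.Obj)
    (F : ∀ n, pw X n ⟶ pw X n) (hF : ∀ n, IsFrobenius C (F n)) :
    Tendsto (fun n => (chowDim C (pw X n) : ℝ≥0∞) / numDim C (pw X n)) atTop (𝓝 ⊤) ∨
    ∀ n, TateConjecture W (F n) → numTriv C (pw X n) = ⊥ :=
  growth_tate hC W X F hF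

end Pool.Agent.Results.MP_dd457d_ag.GrowthTateBeilinson
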