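import Pool.Agent.K1H14.CI.Final

/-!
# The index of the Chow groups of the powers of a variety

Let `X` be a smooth projective variety over a field `k` (for instance a finite field), and let
`X ^ (n + 1)` be its powers.  The Chern character identifies `K_0(perf(X ^ (n + 1)))_ℚ` with
`CH(X ^ (n + 1))`, the Chow groups with rational coefficients of all codimensions, and the kernel of
the Euler pairing `χ_ℚ` with the space `numTriv` of the numerically trivial classes.  We compare the
dimensions of `K_0(perf(X ^ (n + 1)))_ℚ` and of its quotient by `Ker (χ_ℚ)`.

**Theorem.** The quotients `dim CH(X ^ (n + 1)) / dim (CH(X ^ (n + 1)) / numTriv)` converge, and the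
limit `N` is a positive integer or infinite.  It is equal to one if and only if rational and
numerical equivalence coincide on all powers of `X`, that is, if `Ker (χ_ℚ) = 0` for all powers of
the dg category `perf(X)`.  If it is finite, then for all `n`

* `CH(X ^ (n + 1))` is finite-dimensional;
* numerically trivial classes on `X ^ (n + 1)` are homologically trivial (the standard
  conjecture `D`);
* the two-sided ideal of the numerically trivial correspondences from `X ^ (n + 1)` to itself is
  nilpotent: there is `s` such that all compositions of `s` of them are zero.

So each of the three ways in which `CH` can fail to be as small as a theory of finite type (Chow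
groups of infinite dimension; numerically trivial classes which are not homologically trivial;
phantoms, that is, numerically trivial idempotents) makes the quotients tend to infinity; otherwise
the numerically trivial classes of all powers of `X` have a total density `N - 1`, which is an
integer.

## What is used, and what is new

The framework is the one of the starting files (`VarClass`, `ChowTheory`, `WeilTheory`:
`Pool.Agent.H914R2`, `Pool.Agent.R903`).  The starting files `Pool.Agent.Y129` and
`Pool.Agent.Y133` prove an index law for systems of classes **in the cohomology** of the powers of a
variety (for instance: the algebraic classes, the Hodge classes) which are stable under algebraic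
correspondences, via the asymptotic behaviour of the ranks of the idempotent correspondences.  They
say nothing about Chow groups: the Chow groups are not a system of classes in the cohomology, the
correspondences do not act on them through their cohomology classes, and the Chow groups can be of
infinite dimension.  New here:

* `Abs.lean`: the law for an arbitrary sequence of modules over a category of correspondences which
  lifts the cohomological one with nilpotent kernel;
* `Lift.lean`: the correspondences acting on the cohomology and on the Chow groups at the same time
  are such a lift, if the ideal of the numerically trivial correspondences is nilpotent;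
* `Phantom.lean`, `Grow.lean`: if there is a numerically trivial idempotent correspondence `e ≠ 0` on
  some power, then the quotients tend to infinity.  For this one shows that
  `dim CH(B × (P × P)) ≥ dim CH(B) + (...)` with at least one new copy of the numerical Chow group
  of `B` for each factor `P × P`;
* `Alg.lean`: in a finite-dimensional algebra, an ideal without nonzero idempotents is nilpotent;
* the extension of the coefficient field to its algebraic closure, the case of Chow groups of
  infinite dimension, and the case that conjecture `D` fails (where the theorem of `Y133` on the
  algebraic classes applies).
-/

open CategoryTheory AlgebraicGeometry Filter Topology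

open scoped ENNReal

universe u v w

namespace Pool.Agent.Results.MP_dd457d_ag.IndexOfChowGroups

open Pool.Agent.H914 Pool.Agent.H914.VarClass Pool.Agent.R903 Pool.Agent.Y129
  Pool.Agent.K1H14.CI

/-- **The index of the Chow groups of the powers of a variety.** Let `C` be the rational Chow groups
on a class `𝒱` of smooth projective varieties over a field `k` which is closed under products, `W` a
Weil cohomology theory, and `X` in `𝒱`.  Let `pw X n` be the product of `n + 1` copies of `X`,
`chowDim C Y` the dimension of `CH(Y)` (all codimensions), an element of `ℕ ∪ {∞}`, and
`numDim C Y` the dimension of its quotient by the numerically trivial classes.  `HasDegree C` says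
that each variety has a zero-cycle of nonzero degree and that points have degree one. -/
theorem result {k : Type u} [Field k] {𝒱 : VarClass k} (C : ChowTheory.{u, v} 𝒱)
    (hC : HasDegree C) (W : WeilTheory.{u, v, w} C) (X : 𝒱.Obj) :
    ∃ N : ℕ∞, 1 ≤ N ∧
      Tendsto (fun n => (chowDim C (pw X n) : ℝ≥0∞) / numDim C (pw X n)) atTop
        (𝓝 (N : ℝ≥0∞)) ∧
      (∀ n, chowDim C (pw X (2 * n + 1)) ≤ N * numDim C (pw X (2 * n + 1))) ∧
      (N = 1 ↔ ∀ n, numTriv C (pw X n) = ⊥) ∧
      (N ≠ ⊤ → ∀ n, Module.Finite ℚ (C.CH (pw X n)) ∧
        (∀ x ∈ numTriv C (pw X n), W.cl (pw X n) x = 0) ∧
        ∃ s : ℕ, ∀ γ, IsComposite C (pw X n) s γ → γ = 0) := by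
  obtain ⟨y, -, hy⟩ := hC.exists_ne X
  obtain ⟨z, hz⟩ := exists_deg_one ⟨y, hy⟩
  exact index_law hC W hz

end Pool.Agent.Results.MP_dd457d_ag.IndexOfChowGroups
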