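import Pool.Agent.K1H14.VD.Mid

/-!
# Rational and numerical equivalence are compared on powers of divisors in the middle dimension
-/

open CategoryTheory AlgebraicGeometry

universe u v t

namespace Pool.Agent.Results.MP_dd457d_ag.MiddlePowerCriterion

open Pool.Agent.H914 Pool.Agent.H914.VarClass Pool.Agent.H914.VarClass.Obj Pool.Agent.W492.BB
  Pool.Agent.TH133 Pool.Agent.TH829.Prime Pool.Agent.K1H14.VD

/-- **Beilinson's conjecture and powers of divisor classes.** Let `k` be a finite field, let `C` be
the Chow groups with rational coefficients of a class of smooth projective varieties over `k` which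
is closed under products and projective bundles and contains a curve. The following are equivalent:

* for all `X` of the class, rational and numerical equivalence coincide on `CH^*(X)_ℚ` (that is,
  `Ker(χ_ℚ) = 0` for the dg category `perf(X)`);
* for all `X` of the class of even dimension `2n` and all divisor classes `D` on `X`, if `D^n` is
  numerically trivial, then `D^n = 0` in `CH^n(X)_ℚ`. -/
theorem result {k : Type u} [Field k] [Finite k] {𝒱 : VarClass k} (C : TheoryData.{u, v, 0} 𝒱 ℚ)
    [IsChowProj C] (B : BundleData.{u, v, t} C) [IsBundles B] (T : 𝒱.Obj) (hT : T.dim = 1) :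
    (∀ X : 𝒱.Obj, RationalEqNumerical C X) ↔ MiddlePowers C :=
  rational_iff (B := B) hT

end Pool.Agent.Results.MP_dd457d_ag.MiddlePowerCriterion
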